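import Mathlib
import Pool.Agent.H33.BcDefs

namespace Pool.Agent.Results.MP_9b093e_co.Q1
open Pool.Agent.H33.Bc SimpleGraph

/-- columns `0 .. m-1`, levels `0 .. m`; column `m` holds the extra vertices (levels below `m`) -/
abbrev V (m : ℕ) := {p : Fin (m + 1) × Fin (m + 1) // ¬ (p.1.1 = m ∧ p.2.1 = m)}

def G (m : ℕ) : SimpleGraph (V m) where
  Adj a b := (a.1.2.1 = b.1.2.1 ∧ a.1.1.1 ≠ b.1.1.1) ∨
    (a.1.1.1 = b.1.1.1 ∧ a.1.1.1 < m ∧ (a.1.2.1 + 1 = b.1.2.1 ∨ b.1.2.1 + 1 = a.1.2.1))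
  symm := ⟨fun a b h => by omega⟩
  loopless := ⟨fun a h => by omega⟩

variable {m : ℕ}

lemma ext {a b : V m} (h1 : a.1.1.1 = b.1.1.1) (h2 : a.1.2.1 = b.1.2.1) : a = b :=
  Subtype.ext (Prod.ext (Fin.ext h1) (Fin.ext h2))

def mk (i t : ℕ) (hi : i < m) (ht : t ≤ m) : V m :=
  ⟨(⟨i, by omega⟩, ⟨t, by omega⟩), by simp; omega⟩

lemma col (i : ℕ) (hi : i < m) (t : ℕ) (ht : t ≤ m) :
    ∃ p : (G m).Walk (mk i t hi ht) (mk i 0 hi (by omega)), p.length = t := by
  induction t with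
  | zero => exact ⟨.nil, rfl⟩
  | succ t ih =>
    obtain ⟨p, hp⟩ := ih (by omega)
    exact ⟨.cons (v := mk i t hi (by omega)) (Or.inr ⟨rfl, hi, Or.inr rfl⟩) p, by simp [hp]⟩

lemma walk (i : ℕ) (hi : i < m) (u : V m) :
    ∃ p : (G m).Walk u (mk i 0 hi (by omega)), p.length ≤ u.1.2.1 + if u.1.1.1 = i then 0 else 1 := by
  obtain ⟨p, hp⟩ := col i hi u.1.2.1 (by omega)
  split_ifs with h
  · exact ⟨p.copy (ext h.symm rfl) rfl, by simp [hp]⟩
  · exact ⟨.cons (v := mk i u.1.2.1 hi (by omega)) (Or.inl ⟨rfl, h⟩) p, by simp [hp]⟩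

lemma conn (hm : 0 < m) : (G m).Connected := by
  rw [connected_iff_exists_forall_reachable]
  exact ⟨mk 0 0 hm (by omega), fun u => (walk 0 hm u).elim fun p _ => p.reachable.symm⟩

lemma lip (i : ℕ) {u v : V m} (p : (G m).Walk u v) :
    u.1.2.1 + (if u.1.1.1 = i then 1 else 0) ≤ p.length + v.1.2.1 + if v.1.1.1 = i then 1 else 0 := by
  induction p with
  | nil => simp
  | cons h p ih =>
    simp only [Walk.length_cons]
    rcases h with h | h <;> split_ifs at ih ⊢ <;> omega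

lemma low (hm : 0 < m) (i : ℕ) (u v : V m) : u.1.2.1 + (if u.1.1.1 = i then 1 else 0) ≤
    (G m).dist u v + v.1.2.1 + if v.1.1.1 = i then 1 else 0 := by
  obtain ⟨p, hp⟩ := (conn hm u v).exists_walk_length_eq_dist
  exact hp ▸ lip i p

def f (v : V m) : ℕ := if v.1.2.1 = 0 ∧ v.1.1.1 < m then m else 0

lemma f_min (hm : 0 < m) : MinDomBroadcast (G m) f := by
  refine ⟨fun v => ?_, fun u => ?_, fun g _ hg hd => ?_⟩
  · unfold f
    split_ifs with h
    · refine ⟨mk _ m h.2 le_rfl, ?_⟩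
      have := low hm (m + 1) (mk _ m h.2 le_rfl) v
      rw [dist_comm]
      simp only [mk] at this ⊢
      split_ifs at this <;> omega
    · exact ⟨v, Nat.zero_le _⟩
  · have hu := u.2
    by_cases h : u.1.1.1 < m
    · obtain ⟨p, hp⟩ := walk _ h u
      refine ⟨_, ?_, (dist_le p).trans ?_⟩ <;> simp only [f, mk, h, and_self, if_true] at hp ⊢ <;>
        omega
    · obtain ⟨p, hp⟩ := walk 0 hm u
      refine ⟨_, ?_, (dist_le p).trans ?_⟩ <;> simp only [f, mk, hm, and_self, if_true] at hp ⊢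
      · omega
      · split_ifs at hp <;> omega
  · obtain ⟨h1, a, ha⟩ := Pi.lt_def.1 hg
    have ha' : a.1.2.1 = 0 ∧ a.1.1.1 < m := by
      by_contra h; rw [f, if_neg h] at ha; omega
    obtain ⟨v, hv1, hv2⟩ := hd (mk _ m ha'.2 le_rfl)
    have h2 : g v ≤ f v := h1 v
    have h3 := low hm a.1.1.1 (mk _ m ha'.2 le_rfl) v
    rw [f, if_pos ha'] at ha
    have e1 : (mk _ m ha'.2 le_rfl : V m).1.2.1 = m := rfl
    rw [if_pos (by rfl), e1] at h3
    unfold f at h2
    by_cases b : v.1.2.1 = 0 ∧ v.1.1.1 < m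
    · rw [if_pos b] at h2
      split_ifs at h3 with d
      · obtain rfl : v = a := ext d (by omega)
        omega
      · omega
    · rw [if_neg b] at h2; omega

lemma Gb_ge (hm : 0 < m) : m * m ≤ Gb (G m) := by
  have : m * m ≤ ∑ v : V m, f v := by
    refine le_trans ?_ (Finset.sum_le_sum_of_subset (Finset.subset_univ
      (Finset.univ.image fun i : Fin m => mk i.1 0 i.2 (by omega))))
    rw [Finset.sum_image fun i _ j _ h => Fin.ext (congrArg (fun v : V m => v.1.1.1) h)]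
    simp [f, mk]
  refine this.trans (le_csSup ⟨∑ v : V m, ∑ u, (G m).dist v u, ?_⟩ ⟨f, f_min hm, rfl⟩)
  rintro _ ⟨g, hg, rfl⟩
  refine Finset.sum_le_sum fun v _ => ?_
  obtain ⟨u, hu⟩ := hg.1 v
  exact hu.trans (Finset.single_le_sum (f := fun u => (G m).dist v u) (fun _ _ => Nat.zero_le _)
    (Finset.mem_univ u))

lemma uniq {D : Finset (V m)} (h : MinDomSet (G m) D) (a b : V m) (ha : a ∈ D) (hb : b ∈ D)
    (h1 : a.1.2.1 = b.1.2.1) (h2 : a.1.2.1 + 1 ≠ m) : a = b := by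
  by_contra hab
  have hc : a.1.1.1 ≠ b.1.1.1 := fun e => hab (ext e h1)
  refine h.2 (D.erase a) (Finset.erase_ssubset ha) fun u => ?_
  have key : ∀ w ∈ D, w ≠ a → w.1.2.1 = u.1.2.1 →
      u ∈ D.erase a ∨ ∃ v ∈ D.erase a, (G m).Adj u v := by
    intro w hw hwa e
    have hw' := Finset.mem_erase.2 ⟨hwa, hw⟩
    by_cases e2 : u.1.1.1 = w.1.1.1
    · exact Or.inl (ext e2 e.symm ▸ hw')
    · exact Or.inr ⟨w, hw', Or.inl ⟨e.symm, e2⟩⟩
  by_cases e : u.1.2.1 = a.1.2.1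
  · exact key b hb (Ne.symm hab) (by omega)
  · by_cases e2 : u.1.2.1 = m
    · rcases h.1 u with h3 | ⟨v, hv, h3⟩
      · exact Or.inl (Finset.mem_erase.2 ⟨fun e' => e (by rw [e']), h3⟩)
      · refine Or.inr ⟨v, Finset.mem_erase.2 ⟨?_, hv⟩, h3⟩
        rintro rfl
        have := v.1.2.2
        rcases h3 with h3 | h3 <;> omega
    · rcases h.1 ⟨(Fin.last m, u.1.2), fun h => e2 h.2⟩ with h3 | ⟨v, hv, h3⟩
      · exact key _ h3 (fun e' => e (by rw [← e'])) rfl
      · have e3 : v.1.2.1 = u.1.2.1 := by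
          rcases h3 with h3 | h3
          · exact h3.1.symm
          · simp at h3
        exact key v hv (fun e' => e (by rw [← e', e3])) e3

lemma Gam_le : Gam (G m) ≤ 2 * (m + 1) := by
  refine csSup_le' ?_
  rintro _ ⟨D, h, rfl⟩
  have := Finset.card_le_card_of_injOn (s := D) (t := (Finset.univ : Finset (Fin (m + 1) × Bool)))
    (fun a => if a.1.2.1 + 1 = m then (a.1.1, true) else (a.1.2, false)) (by simp) (by
      intro a ha b hb e
      simp only at e
      split_ifs at e with c d d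
      · exact ext (congrArg (fun p => p.1.1) e) (by omega)
      · simp at e
      · simp at e
      · exact uniq h a b ha hb (congrArg (fun p => p.1.1) e) c)
  simpa [mul_comm] using this

theorem result (C : ℕ) : ∃ (V : Type) (_ : Fintype V) (G : SimpleGraph V),
    G.Connected ∧ 2 ≤ Fintype.card V ∧ C * Gam G < Gb G := by
  have hm : 0 < 4 * C + 1 := by omega
  refine ⟨V (4 * C + 1), inferInstance, G _, conn hm, ?_, ?_⟩
  · exact Fintype.one_lt_card_iff.2 ⟨mk 0 0 hm (by omega), mk 0 1 hm (by omega), by simp [mk]⟩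
  · have h1 := Gb_ge hm
    have h2 := Nat.mul_le_mul_left C (Gam_le (m := 4 * C + 1))
    nlinarith

end Pool.Agent.Results.MP_9b093e_co.Q1
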